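import Mathlib

/-!
# Frobenius nonclassical hypersurfaces whose Gauss map is not given by `p`-th powers

For every `n ≥ 3`, every odd prime `p` and every power `q` of `p`, the hypersurface
`U₁² = U₂ U₃` in `P^n`, where `Uᵢ = xᵢ^q - xᵢ x₀^(q-1)`, is `F_q`-Frobenius nonclassical and its
Gauss map does not admit powers of `p` as coordinate functions.
-/

open MvPolynomial

namespace Pool.Agent.Results.MP_291982_ag.GaussNotPowers

section Definitions

variable {k : Type*} [Field k] {n : ℕ}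

/-- `F` defines a hypersurface `V(F)` of `P^n` over the field with `q` elements: it is a
homogeneous polynomial of positive degree without repeated factors, whose coefficients satisfy
`c ^ q = c`. -/
structure IsHypersurface (q : ℕ) (F : MvPolynomial (Fin (n + 1)) k) : Prop where
  homogeneous : ∃ d : ℕ, 0 < d ∧ F.IsHomogeneous d
  ne_zero : F ≠ 0
  squarefree : Squarefree F
  coeff_pow : ∀ m, coeff m F ^ q = coeff m F

/-- `V(F)` is `F_q`-Frobenius nonclassical: `F` divides `∑ xᵢ^q Fᵢ`. -/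
def IsFrobeniusNonclassical (q : ℕ) (F : MvPolynomial (Fin (n + 1)) k) : Prop :=
  F ∣ ∑ i, X i ^ q * pderiv i F

/-- The fraction field of the homogeneous coordinate ring `k[x₀, ..., xₙ] / (G)` of the
irreducible hypersurface `V(G)`. -/
abbrev BigField (G : MvPolynomial (Fin (n + 1)) k) : Type _ :=
  FractionRing (MvPolynomial (Fin (n + 1)) k ⧸ Ideal.span {G})

/-- The canonical map from polynomials to the fraction field of the homogeneous coordinate
ring of `V(G)`. -/
noncomputable def toBig (G : MvPolynomial (Fin (n + 1)) k) :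
    MvPolynomial (Fin (n + 1)) k →+* BigField G :=
  (algebraMap (MvPolynomial (Fin (n + 1)) k ⧸ Ideal.span {G}) (BigField G)).comp
    (Ideal.Quotient.mk (Ideal.span {G}))

/-- `g` is a rational function on the irreducible hypersurface `V(G)`, that is a quotient `A / B`
of two forms of the same degree with `B` not vanishing identically on `V(G)`. -/
def IsRationalFunction (G : MvPolynomial (Fin (n + 1)) k) (g : BigField G) : Prop :=
  ∃ (d : ℕ) (A B : MvPolynomial (Fin (n + 1)) k), A.IsHomogeneous d ∧ B.IsHomogeneous d ∧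
    ¬ G ∣ B ∧ g * toBig G B = toBig G A

/-- The Gauss map `(F₀ : ... : Fₙ)` of `V(F)` admits powers of `p` as coordinate functions: on
every irreducible component `V(G)` of `V(F)` there are rational functions `g₀, ..., gₙ`, not all
zero, with `(F₀ : ... : Fₙ) = (g₀^p : ... : gₙ^p)`. -/
def GaussMapAdmitsPowers (p : ℕ) (F : MvPolynomial (Fin (n + 1)) k) : Prop :=
  ∀ G : MvPolynomial (Fin (n + 1)) k, Irreducible G → G ∣ F →
    ∃ g : Fin (n + 1) → BigField G, (∀ i, IsRationalFunction G (g i)) ∧ (∃ i, g i ≠ 0) ∧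
      ∀ i j, toBig G (pderiv i F) * g j ^ p = toBig G (pderiv j F) * g i ^ p

end Definitions

section Proof

variable {k : Type*} [Field k] {σ : Type*}

/-- The sum `∑ vᵢ ∂F/∂xᵢ` is a derivation. -/
lemma sum_pderiv [Fintype σ] (v : σ → MvPolynomial σ k) (F : MvPolynomial σ k) :
    ∑ i, v i * pderiv i F = mkDerivation k v F := by
  classical
  have hc : ∀ P, (∑ i, v i • pderiv i : Derivation k (MvPolynomial σ k) (MvPolynomial σ k)) P
      = ∑ i, v i * pderiv i P := by
    intro P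
    have := congrFun (map_sum (Derivation.coeFnAddMonoidHom (R := k) (A := MvPolynomial σ k)
      (M := MvPolynomial σ k)) (fun i => v i • pderiv i) Finset.univ) P
    rw [Finset.sum_apply] at this
    exact this
  have h : (∑ i, v i • pderiv i : Derivation k (MvPolynomial σ k) (MvPolynomial σ k))
      = mkDerivation k v := by
    apply MvPolynomial.derivation_ext
    intro j
    rw [mkDerivation_X, hc]
    simp [pderiv_X, Pi.single_apply]
  rw [← h, hc]

/-- `Uᵢ = xᵢ^q - xᵢ x₀^(q-1)` with `q = s + 2`. -/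
noncomputable def U (s : ℕ) (a0 i : σ) : MvPolynomial σ k :=
  X i ^ (s + 2) - X i * X a0 ^ (s + 1)

lemma D_U {s : ℕ} (hs : ((s + 2 : ℕ) : k) = 0) (a0 i : σ)
    (D : Derivation k (MvPolynomial σ k) (MvPolynomial σ k)) :
    D (U s a0 i) = - (X a0 ^ (s + 1) * D (X i)) + X i * X a0 ^ s * D (X a0) := by
  have h2 : ((s + 2 : ℕ) : MvPolynomial σ k) = 0 := by
    rw [← map_natCast (C : k →+* MvPolynomial σ k), hs, map_zero]
  have h1 : ((s + 1 : ℕ) : MvPolynomial σ k) = -1 := by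
    have : ((s + 2 : ℕ) : MvPolynomial σ k) = ((s + 1 : ℕ) : MvPolynomial σ k) + 1 := by
      push_cast; ring
    rw [this] at h2
    exact eq_neg_of_add_eq_zero_left h2
  simp only [U, map_sub, Derivation.leibniz, Derivation.leibniz_pow, smul_eq_mul,
    nsmul_eq_mul, Nat.add_sub_cancel]
  rw [h2, h1]
  ring

/-- The equation `F = U₁² - U₂ U₃`. -/
noncomputable def Feq (s : ℕ) (a0 a1 a2 a3 : σ) : MvPolynomial σ k :=
  U s a0 a1 ^ 2 - U s a0 a2 * U s a0 a3

lemma D_F {s : ℕ} (hs : ((s + 2 : ℕ) : k) = 0) (a0 a1 a2 a3 : σ)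
    (D : Derivation k (MvPolynomial σ k) (MvPolynomial σ k)) (h0 : D (X a0) = 0) :
    D (Feq s a0 a1 a2 a3) = X a0 ^ (s + 1) * (-2 * U s a0 a1 * D (X a1) +
      U s a0 a3 * D (X a2) + U s a0 a2 * D (X a3)) := by
  simp only [Feq, map_sub, Derivation.leibniz, Derivation.leibniz_pow, smul_eq_mul, nsmul_eq_mul,
    D_U hs, h0]
  push_cast
  ring

lemma frob_F {s : ℕ} (hs : ((s + 2 : ℕ) : k) = 0) (a0 a1 a2 a3 : σ) :
    mkDerivation k (fun i : σ => (X i : MvPolynomial σ k) ^ (s + 2)) (Feq s a0 a1 a2 a3) =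
      Feq s a0 a1 a2 a3 * (-2 * X a0 ^ (s + 1)) := by
  simp only [Feq, map_sub, Derivation.leibniz, Derivation.leibniz_pow, smul_eq_mul, nsmul_eq_mul,
    D_U hs, mkDerivation_X]
  simp only [U]
  push_cast
  ring

/-- A polynomial dividing a nonzero polynomial of total degree at most one, and not a unit, is
proportional to it. -/
lemma dvd_of_dvd_linear {G L : MvPolynomial σ k} (hG : Irreducible G) (hL0 : L ≠ 0)
    (hL : L.totalDegree ≤ 1) (h : G ∣ L) : L ∣ G := by
  obtain ⟨H, rfl⟩ := h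
  have hG0 : G ≠ 0 := hG.ne_zero
  have hH0 : H ≠ 0 := right_ne_zero_of_mul hL0
  rw [totalDegree_mul_of_isDomain hG0 hH0] at hL
  have h1 : G.totalDegree ≠ 0 := by
    intro h0
    obtain hc := totalDegree_eq_zero_iff_eq_C.mp h0
    apply hG.not_isUnit
    rw [hc]
    apply IsUnit.map
    rw [isUnit_iff_ne_zero]
    intro h0
    rw [h0, map_zero] at hc
    exact hG0 hc
  have h2 : H.totalDegree = 0 := by omega
  have h3 : IsUnit H := by
    have hc := totalDegree_eq_zero_iff_eq_C.mp h2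
    rw [hc]
    apply IsUnit.map
    rw [isUnit_iff_ne_zero]
    intro h0
    rw [h0, map_zero] at hc
    exact hH0 hc
  exact (h3.dvd_mul_right).mp (dvd_refl _)

lemma exists_linear [IsAlgClosed k] {s : ℕ} (a0 i : σ) {G : MvPolynomial σ k}
    (hG : Irreducible G) (h : G ∣ U s a0 i) : ∃ a : k, G ∣ X i - C a * X a0 := by
  have hprime : Prime G := hG.prime
  have hPr : (Ideal.span {G}).IsPrime := (Ideal.span_singleton_prime hG.ne_zero).mpr hprime
  have hker : ∀ P : MvPolynomial σ k, Ideal.Quotient.mk (Ideal.span {G}) P = 0 ↔ G ∣ P := by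
    intro P
    rw [Ideal.Quotient.eq_zero_iff_mem, Ideal.mem_span_singleton]
  by_cases hz : G ∣ X a0
  · refine ⟨0, ?_⟩
    have h1 : G ∣ X i ^ (s + 2) := by
      have : (X i ^ (s + 2) : MvPolynomial σ k) = U s a0 i + X i * X a0 ^ s * X a0 := by
        rw [U]; ring
      rw [this]
      exact dvd_add h (hz.mul_left _)
    have h2 := hprime.dvd_of_dvd_pow h1
    simpa using h2
  · let K := FractionRing (MvPolynomial σ k ⧸ Ideal.span {G})
    let f : MvPolynomial σ k →+* K := (algebraMap _ K).comp (Ideal.Quotient.mk (Ideal.span {G}))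
    have hf : ∀ P, f P = 0 ↔ G ∣ P := by
      intro P
      rw [← hker P]
      simp only [f, RingHom.comp_apply]
      exact (IsFractionRing.injective (MvPolynomial σ k ⧸ Ideal.span {G}) K).eq_iff'
        (map_zero _)
    have hz' : f (X a0) ≠ 0 := fun h0 => hz ((hf _).mp h0)
    have hU : f (X i) ^ (s + 2) = f (X i) * f (X a0) ^ (s + 1) := by
      have := (hf _).mpr h
      rw [U, map_sub, map_pow, map_mul, map_pow, sub_eq_zero] at this
      exact this
    set y : K := f (X i) / f (X a0) with hy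
    have hyq : y ^ (s + 2) = y := by
      rw [hy, div_pow, hU, div_eq_div_iff (pow_ne_zero _ hz') hz']
      ring
    have hint : IsIntegral k y := by
      refine ⟨Polynomial.X ^ (s + 2) - Polynomial.X, ?_, ?_⟩
      · apply Polynomial.monic_X_pow_sub
        rw [Polynomial.degree_X]
        exact_mod_cast (by omega : 1 < s + 2)
      · simp [hyq]
    have hdeg := IsAlgClosed.degree_eq_one_of_irreducible k (minpoly.irreducible hint)
    obtain ⟨a, ha⟩ := minpoly.mem_range_of_degree_eq_one k y hdeg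
    refine ⟨a, ?_⟩
    rw [← hf, map_sub, map_mul]
    have : f (C a) = algebraMap k K a := rfl
    rw [this, ha, hy, div_mul_cancel₀ _ hz', sub_self]

lemma linear_ne_zero {a0 i : σ} (h : i ≠ a0) (a : k) :
    (X i - C a * X a0 : MvPolynomial σ k) ≠ 0 := by
  classical
  intro h0
  have := congrArg (eval (Pi.single i (1 : k))) h0
  simp [h] at this

lemma totalDegree_linear (a0 i : σ) (a : k) :
    (X i - C a * X a0 : MvPolynomial σ k).totalDegree ≤ 1 := by
  refine (totalDegree_sub _ _).trans (max_le ?_ ?_)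
  · rw [totalDegree_X]
  · refine (totalDegree_mul _ _).trans ?_
    rw [totalDegree_X, totalDegree_C]

/-- If an irreducible `G` divides both `Uᵢ` and `F`, then `F` vanishes on a hyperplane
`xᵢ = a x₀` on which `Uᵢ` also vanishes. -/
lemma exists_hyperplane [IsAlgClosed k] {s : ℕ} {a0 i : σ} (hi : i ≠ a0) {G : MvPolynomial σ k}
    (hG : Irreducible G) (h : G ∣ U s a0 i) :
    ∃ a : k, ∀ F : MvPolynomial σ k, G ∣ F → ∀ v : σ → k, v i = a * v a0 → eval v F = 0 := by
  obtain ⟨a, ha⟩ := exists_linear a0 i hG h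
  refine ⟨a, fun F hF v hv => ?_⟩
  have h1 := (dvd_of_dvd_linear hG (linear_ne_zero hi a) (totalDegree_linear a0 i a) ha).trans hF
  obtain ⟨H, rfl⟩ := h1
  simp [hv]

lemma exists_hyperplane_zero {a0 : σ} {G : MvPolynomial σ k}
    (hG : Irreducible G) (h : G ∣ X a0) (F : MvPolynomial σ k) (hF : G ∣ F) (v : σ → k)
    (hv : v a0 = 0) : eval v F = 0 := by
  have h1 := (dvd_of_dvd_linear hG (X_ne_zero a0) (by rw [totalDegree_X]) h).trans hF
  obtain ⟨H, rfl⟩ := h1
  simp [hv]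

lemma exists_pow_ne [IsAlgClosed k] (s : ℕ) : ∃ c : k, c ^ (s + 2) - c ≠ 0 := by
  obtain ⟨c, hc⟩ := IsAlgClosed.exists_root
    (Polynomial.X ^ (s + 2) - (Polynomial.X + Polynomial.C 1) : Polynomial k) (by
      rw [Polynomial.degree_sub_eq_left_of_degree_lt]
      · simp
        exact_mod_cast (by omega : s + 2 ≠ 0)
      · rw [Polynomial.degree_X_pow, Polynomial.degree_X_add_C]
        exact_mod_cast (by omega : 1 < s + 2))
  refine ⟨c, ?_⟩
  simp only [Polynomial.IsRoot.def, Polynomial.eval_sub, Polynomial.eval_pow, Polynomial.eval_X,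
    Polynomial.eval_add, Polynomial.eval_C] at hc
  have : c ^ (s + 2) - c = 1 := by linear_combination hc
  rw [this]
  exact one_ne_zero

lemma eval_U (s : ℕ) (a0 i : σ) (v : σ → k) :
    eval v (U s a0 i) = v i ^ (s + 2) - v i * v a0 ^ (s + 1) := by
  simp [U]

lemma not_dvd_X0 [IsAlgClosed k] {s : ℕ} {a0 a1 a2 a3 : σ} (h01 : a1 ≠ a0)
    (h12 : a1 ≠ a2) {G : MvPolynomial σ k}
    (hG : Irreducible G) (hF : G ∣ Feq s a0 a1 a2 a3) : ¬ G ∣ X a0 := by
  classical
  intro h
  have := exists_hyperplane_zero hG h _ hF (Pi.single a1 1) (by simp [h01.symm])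
  simp [Feq, eval_U, h01.symm, h12.symm] at this

lemma not_dvd_U1 [IsAlgClosed k] {s : ℕ} {a0 a1 a2 a3 : σ} (h01 : a1 ≠ a0) (h02 : a2 ≠ a0)
    (h03 : a3 ≠ a0) (h12 : a1 ≠ a2) (h13 : a1 ≠ a3) {G : MvPolynomial σ k}
    (hG : Irreducible G) (hF : G ∣ Feq s a0 a1 a2 a3) : ¬ G ∣ U s a0 a1 := by
  classical
  intro h
  obtain ⟨a, ha⟩ := exists_hyperplane h01 hG h
  obtain ⟨c, hc⟩ := exists_pow_ne (k := k) s
  let v : σ → k := fun i => if i = a0 then 1 else if i = a1 then a else c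
  have v0 : v a0 = 1 := by simp [v]
  have v1 : v a1 = a := by simp [v, h01]
  have v2 : v a2 = c := by simp [v, h02, h12.symm]
  have v3 : v a3 = c := by simp [v, h03, h13.symm]
  have h1 := ha _ hF v (by rw [v0, v1, mul_one])
  have h2 := ha _ h v (by rw [v0, v1, mul_one])
  rw [Feq, map_sub, map_pow, h2, map_mul, eval_U, eval_U, v0, v2, v3] at h1
  apply hc
  have : (c ^ (s + 2) - c) ^ 2 = 0 := by linear_combination -h1
  exact pow_eq_zero_iff (two_ne_zero) |>.mp this

lemma not_dvd_U2 [IsAlgClosed k] {s : ℕ} {a0 a1 a2 a3 : σ} (h01 : a1 ≠ a0) (h02 : a2 ≠ a0)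
    (h12 : a1 ≠ a2) {G : MvPolynomial σ k}
    (hG : Irreducible G) (hF : G ∣ Feq s a0 a1 a2 a3) : ¬ G ∣ U s a0 a2 := by
  classical
  intro h
  obtain ⟨a, ha⟩ := exists_hyperplane h02 hG h
  obtain ⟨c, hc⟩ := exists_pow_ne (k := k) s
  let v : σ → k := fun i => if i = a0 then 1 else if i = a2 then a else c
  have v0 : v a0 = 1 := by simp [v]
  have v1 : v a1 = c := by simp [v, h01, h12]
  have v2 : v a2 = a := by simp [v, h02]
  have h1 := ha _ hF v (by rw [v0, v2, mul_one])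
  have h2 := ha _ h v (by rw [v0, v2, mul_one])
  rw [Feq, map_sub, map_pow, map_mul, h2, eval_U, eval_U, v0, v1] at h1
  apply hc
  have : (c ^ (s + 2) - c) ^ 2 = 0 := by linear_combination h1
  exact pow_eq_zero_iff (two_ne_zero) |>.mp this

lemma Feq_comm (s : ℕ) (a0 a1 a2 a3 : σ) :
    (Feq s a0 a1 a2 a3 : MvPolynomial σ k) = Feq s a0 a1 a3 a2 := by
  rw [Feq, Feq]; ring

/-- Four distinct variables. -/
structure Dist (a0 a1 a2 a3 : σ) : Prop where
  h01 : a1 ≠ a0
  h02 : a2 ≠ a0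
  h03 : a3 ≠ a0
  h12 : a1 ≠ a2
  h13 : a1 ≠ a3
  h23 : a2 ≠ a3

lemma F_ne_zero {s : ℕ} {a0 a1 a2 a3 : σ} (hd : Dist a0 a1 a2 a3) :
    (Feq s a0 a1 a2 a3 : MvPolynomial σ k) ≠ 0 := by
  classical
  intro h
  have := congrArg (eval (Pi.single a1 (1 : k))) h
  simp [Feq, eval_U, hd.h01.symm, hd.h12.symm] at this

lemma pderiv_F {s : ℕ} (hs : ((s + 2 : ℕ) : k) = 0) {a0 a1 a2 a3 : σ}
    (hd : Dist a0 a1 a2 a3) :
    pderiv a1 (Feq s a0 a1 a2 a3 : MvPolynomial σ k) = X a0 ^ (s + 1) * (-2 * U s a0 a1) ∧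
    pderiv a2 (Feq s a0 a1 a2 a3 : MvPolynomial σ k) = X a0 ^ (s + 1) * U s a0 a3 ∧
    pderiv a3 (Feq s a0 a1 a2 a3 : MvPolynomial σ k) = X a0 ^ (s + 1) * U s a0 a2 := by
  classical
  refine ⟨?_, ?_, ?_⟩
  · rw [D_F hs _ _ _ _ _ (pderiv_X_of_ne hd.h01.symm), pderiv_X_self,
      pderiv_X_of_ne hd.h12.symm, pderiv_X_of_ne hd.h13.symm]
    ring
  · rw [D_F hs _ _ _ _ _ (pderiv_X_of_ne hd.h02.symm), pderiv_X_self,
      pderiv_X_of_ne hd.h12, pderiv_X_of_ne hd.h23.symm]
    ring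
  · rw [D_F hs _ _ _ _ _ (pderiv_X_of_ne hd.h03.symm), pderiv_X_self,
      pderiv_X_of_ne hd.h13, pderiv_X_of_ne hd.h23]
    ring

lemma squarefree_F [IsAlgClosed k] {s : ℕ} (hs : ((s + 2 : ℕ) : k) = 0) {a0 a1 a2 a3 : σ}
    (hd : Dist a0 a1 a2 a3) : Squarefree (Feq s a0 a1 a2 a3 : MvPolynomial σ k) := by
  rw [squarefree_iff_no_irreducibles (F_ne_zero hd)]
  intro G hG hGG
  have hF : G ∣ Feq s a0 a1 a2 a3 := (dvd_mul_right G G).trans hGG
  obtain ⟨H, hH⟩ := hGG
  have h3 : G ∣ pderiv a3 (Feq s a0 a1 a2 a3 : MvPolynomial σ k) := by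
    rw [hH, Derivation.leibniz, Derivation.leibniz]
    simp only [smul_eq_mul]
    exact ⟨G * pderiv a3 H + H * (pderiv a3 G + pderiv a3 G), by ring⟩
  rw [(pderiv_F hs hd).2.2] at h3
  rcases hG.prime.dvd_or_dvd h3 with h | h
  · exact not_dvd_X0 hd.h01 hd.h12 hG hF (hG.prime.dvd_of_dvd_pow h)
  · exact not_dvd_U2 hd.h01 hd.h02 hd.h12 hG hF h

/-- The derivation `D(h) = F₃ ∂₁ h - F₁ ∂₃ h`. -/
noncomputable def DD (F : MvPolynomial σ k) (a1 a3 : σ) :
    Derivation k (MvPolynomial σ k) (MvPolynomial σ k) :=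
  pderiv a3 F • pderiv a1 - pderiv a1 F • pderiv a3

lemma DD_apply (F : MvPolynomial σ k) (a1 a3 : σ) (h : MvPolynomial σ k) :
    DD F a1 a3 h = pderiv a3 F * pderiv a1 h - pderiv a1 F * pderiv a3 h := by
  simp [DD]

/-- `D` preserves the ideal of every irreducible factor of `F`. -/
lemma dvd_DD {F G : MvPolynomial σ k} (hsq : Squarefree F) (hG : Irreducible G) (h : G ∣ F)
    (a1 a3 : σ) {P : MvPolynomial σ k} (hP : G ∣ P) : G ∣ DD F a1 a3 P := by
  have hGG : G ∣ DD F a1 a3 G := by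
    obtain ⟨H, hH⟩ := h
    have h0 : DD F a1 a3 F = 0 := by rw [DD_apply]; ring
    have h1 : DD F a1 a3 (G * H) = 0 := by rw [← hH]; exact h0
    rw [Derivation.leibniz, smul_eq_mul, smul_eq_mul] at h1
    have h2 : G ∣ H * DD F a1 a3 G := ⟨- DD F a1 a3 H, by linear_combination h1⟩
    rcases hG.prime.dvd_or_dvd h2 with h3 | h3
    · exfalso
      obtain ⟨H', rfl⟩ := h3
      apply hG.not_isUnit
      apply hsq G
      exact ⟨H', by rw [hH]; ring⟩
    · exact h3
  obtain ⟨Q, rfl⟩ := hP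
  rw [Derivation.leibniz, smul_eq_mul, smul_eq_mul]
  exact dvd_add (dvd_mul_right _ _) (hGG.mul_left _)

/-- The Wronskian-type obstruction: if `Fᵢ P^p ≡ Fⱼ Q^p` modulo `G`, then `G` divides `P`, or it
divides `Fⱼ D Fᵢ - Fᵢ D Fⱼ`. -/
lemma key {p : ℕ} [CharP k p] {F G : MvPolynomial σ k} (hsq : Squarefree F)
    (hG : Irreducible G) (h : G ∣ F) (a1 a3 : σ) {A B P Q : MvPolynomial σ k}
    (hAB : G ∣ A * P ^ p - B * Q ^ p) :
    G ∣ P ∨ G ∣ B * DD F a1 a3 A - A * DD F a1 a3 B := by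
  have hp : (p : MvPolynomial σ k) = 0 := by
    rw [← map_natCast (C : k →+* MvPolynomial σ k), CharP.cast_eq_zero, map_zero]
  have h1 := dvd_DD hsq hG h a1 a3 hAB
  have h2 : DD F a1 a3 (A * P ^ p - B * Q ^ p) =
      DD F a1 a3 A * P ^ p - DD F a1 a3 B * Q ^ p := by
    simp only [map_sub, Derivation.leibniz, Derivation.leibniz_pow, smul_eq_mul, nsmul_eq_mul, hp]
    ring
  rw [h2] at h1
  have h3 : G ∣ P ^ p * (B * DD F a1 a3 A - A * DD F a1 a3 B) := by
    obtain ⟨R, hR⟩ := hAB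
    obtain ⟨S, hS⟩ := h1
    exact ⟨B * S - DD F a1 a3 B * R, by linear_combination B * hS - DD F a1 a3 B * hR⟩
  rcases hG.prime.dvd_or_dvd h3 with h4 | h4
  · exact Or.inl (hG.prime.dvd_of_dvd_pow h4)
  · exact Or.inr h4

lemma wronskian_F {s : ℕ} (hs : ((s + 2 : ℕ) : k) = 0) {a0 a1 a2 a3 : σ}
    (hd : Dist a0 a1 a2 a3) :
    let F : MvPolynomial σ k := Feq s a0 a1 a2 a3
    pderiv a3 F * DD F a1 a3 (pderiv a2 F) - pderiv a2 F * DD F a1 a3 (pderiv a3 F)
      = X a0 ^ (4 * s + 4) * (C (-2) * (U s a0 a1 * U s a0 a2)) := by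
  intro F
  have h1 := (pderiv_F hs hd).1
  have h2 := (pderiv_F hs hd).2.1
  have h3 := (pderiv_F hs hd).2.2
  have hC : (C (-2 : k) : MvPolynomial σ k) = -2 := by
    rw [map_neg, map_ofNat]
  rw [DD_apply, DD_apply]
  simp only [F, h1, h2, h3, Derivation.leibniz, Derivation.leibniz_pow, smul_eq_mul,
    nsmul_eq_mul, D_U hs, pderiv_X_self, pderiv_X_of_ne hd.h01.symm, pderiv_X_of_ne hd.h03.symm,
    pderiv_X_of_ne hd.h13.symm, pderiv_X_of_ne hd.h12.symm,
    pderiv_X_of_ne hd.h23, hC]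
  ring

end Proof

theorem result (n : ℕ) (hn : 3 ≤ n) (p : ℕ) [Fact p.Prime] (hp : p ≠ 2) (e : ℕ) (he : 0 < e) :
    ∃ F : MvPolynomial (Fin (n + 1)) (AlgebraicClosure (ZMod p)),
      IsHypersurface (p ^ e) F ∧ IsFrobeniusNonclassical (p ^ e) F ∧
        ¬ GaussMapAdmitsPowers p F := by
  set k := AlgebraicClosure (ZMod p) with hk
  have : CharP k p := by infer_instance
  have hpr : p.Prime := Fact.out
  obtain ⟨s, hs⟩ : ∃ s, p ^ e = s + 2 := by
    have : 2 ≤ p ^ e := by
      calc 2 ≤ p := hpr.two_le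
        _ = p ^ 1 := (pow_one p).symm
        _ ≤ p ^ e := Nat.pow_le_pow_right hpr.pos he
    exact ⟨p ^ e - 2, by omega⟩
  have hs0 : ((s + 2 : ℕ) : k) = 0 := by
    rw [← hs, Nat.cast_pow, CharP.cast_eq_zero, zero_pow he.ne']
  let a0 : Fin (n + 1) := ⟨0, by omega⟩
  let a1 : Fin (n + 1) := ⟨1, by omega⟩
  let a2 : Fin (n + 1) := ⟨2, by omega⟩
  let a3 : Fin (n + 1) := ⟨3, by omega⟩
  have hd : Dist a0 a1 a2 a3 := by
    constructor <;> simp [a0, a1, a2, a3]
  refine ⟨Feq s a0 a1 a2 a3, ⟨⟨(s + 2) + (s + 2), by omega, ?_⟩, F_ne_zero hd,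
    squarefree_F hs0 hd, ?_⟩, ?_, ?_⟩
  · have hU : ∀ i, (U s a0 i : MvPolynomial (Fin (n + 1)) k).IsHomogeneous (s + 2) := by
      intro i
      refine IsHomogeneous.sub ?_ ?_
      · simpa using (isHomogeneous_X k i).pow (s + 2)
      · have := (isHomogeneous_X k i).mul ((isHomogeneous_X k a0).pow (s + 1))
        have h2 : 1 + 1 * (s + 1) = s + 2 := by ring
        rwa [h2] at this
    refine IsHomogeneous.sub ?_ ((hU _).mul (hU _))
    rw [pow_two]
    exact (hU _).mul (hU _)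
  · intro m
    have hmap : MvPolynomial.map (iterateFrobenius k p e) (Feq s a0 a1 a2 a3) =
        (Feq s a0 a1 a2 a3 : MvPolynomial (Fin (n + 1)) k) := by
      simp [Feq, U]
    have := congrArg (coeff m) hmap
    rwa [coeff_map, iterateFrobenius_def] at this
  · rw [IsFrobeniusNonclassical, hs, sum_pderiv, frob_F hs0]
    exact dvd_mul_right _ _
  · intro hadm
    set F : MvPolynomial (Fin (n + 1)) k := Feq s a0 a1 a2 a3 with hF
    have hsq : Squarefree F := squarefree_F hs0 hd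
    have hnu : ¬ IsUnit F := by
      intro hu
      have h1 := hu.map (eval (0 : Fin (n + 1) → k))
      simp [hF, Feq, U] at h1
    obtain ⟨G, hG, hGF⟩ := WfDvdMonoid.exists_irreducible_factor hnu (F_ne_zero hd)
    obtain ⟨g, hrat, ⟨l, hl⟩, hg⟩ := hadm G hG hGF
    have hX0 : ¬ G ∣ X a0 := not_dvd_X0 hd.h01 hd.h12 hG hGF
    have hU1 : ¬ G ∣ U s a0 a1 := not_dvd_U1 hd.h01 hd.h02 hd.h03 hd.h12 hd.h13 hG hGF
    have hU2 : ¬ G ∣ U s a0 a2 := not_dvd_U2 hd.h01 hd.h02 hd.h12 hG hGF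
    have hU3 : ¬ G ∣ U s a0 a3 := by
      rw [hF, Feq_comm] at hGF
      exact not_dvd_U2 hd.h01 hd.h03 hd.h13 hG hGF
    have hPr : (Ideal.span {G}).IsPrime := (Ideal.span_singleton_prime hG.ne_zero).mpr hG.prime
    have hzero : ∀ P, toBig G P = 0 ↔ G ∣ P := by
      intro P
      rw [toBig, RingHom.comp_apply, ← Ideal.mem_span_singleton, ← Ideal.Quotient.eq_zero_iff_mem]
      exact (IsFractionRing.injective (MvPolynomial (Fin (n + 1)) k ⧸ Ideal.span {G})
        (BigField G)).eq_iff' (map_zero _)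
    have h2k : (-2 : k) ≠ 0 := by
      intro h
      have h' : ((2 : ℕ) : k) = 0 := by
        push_cast
        linear_combination -h
      rw [CharP.cast_eq_zero_iff k p] at h'
      exact hp ((Nat.prime_dvd_prime_iff_eq hpr Nat.prime_two).mp h')
    have hW : ¬ G ∣ pderiv a3 F * DD F a1 a3 (pderiv a2 F) -
        pderiv a2 F * DD F a1 a3 (pderiv a3 F) := by
      rw [wronskian_F hs0 hd]
      intro h
      rcases hG.prime.dvd_or_dvd h with h | h
      · exact hX0 (hG.prime.dvd_of_dvd_pow h)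
      rcases hG.prime.dvd_or_dvd h with h | h
      · apply hG.not_isUnit
        apply isUnit_of_dvd_unit h
        exact (isUnit_iff_ne_zero.mpr h2k).map C
      rcases hG.prime.dvd_or_dvd h with h | h
      · exact hU1 h
      · exact hU2 h
    have hg3 : g a3 = 0 := by
      obtain ⟨d2, A2, B2, -, -, hB2, h2⟩ := hrat a2
      obtain ⟨d3, A3, B3, -, -, hB3, h3⟩ := hrat a3
      have h23 := hg a2 a3
      have h4 : toBig G (pderiv a2 F * (A3 * B2) ^ p - pderiv a3 F * (A2 * B3) ^ p) = 0 := by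
        rw [map_sub, map_mul, map_mul, map_pow, map_pow, map_mul, map_mul, ← h2, ← h3]
        linear_combination (toBig G B2) ^ p * (toBig G B3) ^ p * h23
      rcases key (p := p) hsq hG hGF a1 a3 ((hzero _).mp h4) with h5 | h5
      · rcases hG.prime.dvd_or_dvd h5 with h6 | h6
        · rw [(hzero _).mpr h6] at h3
          rcases mul_eq_zero.mp h3 with h7 | h7
          · exact h7
          · exact absurd ((hzero _).mp h7) hB3
        · exact absurd h6 hB2
      · exact absurd h5 hW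
    have h3l := hg a3 l
    rw [hg3, zero_pow hpr.ne_zero, mul_zero] at h3l
    rcases mul_eq_zero.mp h3l with h7 | h7
    · rw [hzero, (pderiv_F hs0 hd).2.2] at h7
      rcases hG.prime.dvd_or_dvd h7 with h | h
      · exact hX0 (hG.prime.dvd_of_dvd_pow h)
      · exact hU2 h
    · exact hl (pow_eq_zero_iff hpr.ne_zero |>.mp h7)

end Pool.Agent.Results.MP_291982_ag.GaussNotPowers
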