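import Mathlib
import Pool.Agent.Results.MP_291982_ag.GaussNotPowers

/-!
# A curve on a Frobenius nonclassical hypersurface with separable restricted Gauss map

For every `n ≥ 3`, every odd prime `p` and every power `q` of `p`, the hypersurface
`U₁ (x₁ x₂^q - x₁^q x₂) + x₀ (U₁ U₃ - U₂²) = 0` in `P^n`, where `Uᵢ = xᵢ^q - xᵢ x₀^(q-1)`, is
`F_q`-Frobenius nonclassical, contains the twisted cubic, and the restriction of its Gauss map to
the twisted cubic is separable.
-/

open MvPolynomial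

namespace Pool.Agent.Results.MP_291982_ag.SeparableCurve

section Definitions

variable {k : Type*} [Field k] {n : ℕ}

/-- `F` defines a hypersurface `V(F)` of `P^n` over the field with `q` elements: it is a
homogeneous polynomial of positive degree without repeated factors, whose coefficients satisfy
`c ^ q = c`. -/
structure IsHypersurface (q : ℕ) (F : MvPolynomial (Fin (n + 1)) k) : Prop where
  homogeneous : ∃ d : ℕ, 0 < d ∧ F.IsHomogeneous d
  ne_zero : F ≠ 0
  squarefree : Squarefree F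
  coeff_pow : ∀ m, coeff m F ^ q = coeff m F

/-- `V(F)` is `F_q`-Frobenius nonclassical: `F` divides `∑ xᵢ^q Fᵢ`. -/
def IsFrobeniusNonclassical (q : ℕ) (F : MvPolynomial (Fin (n + 1)) k) : Prop :=
  F ∣ ∑ i, X i ^ q * pderiv i F

/-- `P` is the homogeneous ideal of an irreducible curve in `P^n` defined over the field with `q`
elements: a prime ideal generated by forms whose coefficients satisfy `c ^ q = c`, with
homogeneous coordinate ring `k[x₀, ..., xₙ] / P` of Krull dimension two. -/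
structure IsCurveIdeal (q : ℕ) (P : Ideal (MvPolynomial (Fin (n + 1)) k)) : Prop where
  prime : P.IsPrime
  dim : ringKrullDim (MvPolynomial (Fin (n + 1)) k ⧸ P) = 2
  gen : ∃ T : Set (MvPolynomial (Fin (n + 1)) k), P = Ideal.span T ∧
    ∀ f ∈ T, (∃ d : ℕ, f.IsHomogeneous d) ∧ ∀ m, coeff m f ^ q = coeff m f

/-- The fraction field of the homogeneous coordinate ring `k[x₀, ..., xₙ] / P` of the curve with
ideal `P`. -/
abbrev BigField (P : Ideal (MvPolynomial (Fin (n + 1)) k)) : Type _ :=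
  FractionRing (MvPolynomial (Fin (n + 1)) k ⧸ P)

/-- The canonical map from polynomials to the fraction field of the homogeneous coordinate
ring of the curve with ideal `P`. -/
noncomputable def toBig (P : Ideal (MvPolynomial (Fin (n + 1)) k)) :
    MvPolynomial (Fin (n + 1)) k →+* BigField P :=
  (algebraMap (MvPolynomial (Fin (n + 1)) k ⧸ P) (BigField P)).comp (Ideal.Quotient.mk P)

/-- `g` is a rational function on the curve with ideal `P`, that is a quotient `A / B` of two
forms of the same degree with `B` not vanishing identically on the curve. -/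
def IsRationalFunction (P : Ideal (MvPolynomial (Fin (n + 1)) k)) (g : BigField P) : Prop :=
  ∃ (d : ℕ) (A B : MvPolynomial (Fin (n + 1)) k), A.IsHomogeneous d ∧ B.IsHomogeneous d ∧
    B ∉ P ∧ g * toBig P B = toBig P A

/-- The restriction of the Gauss map `(F₀ : ... : Fₙ)` of `V(F)` to the curve with ideal `P` is
inseparable: every ratio `Fᵢ / Fⱼ` with `Fⱼ` not vanishing identically on the curve is the
`p`-th power of a rational function on the curve. -/
def IsInseparableOn (p : ℕ) (F : MvPolynomial (Fin (n + 1)) k)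
    (P : Ideal (MvPolynomial (Fin (n + 1)) k)) : Prop :=
  ∀ i j, pderiv j F ∉ P →
    ∃ g : BigField P, IsRationalFunction P g ∧
      g ^ p * toBig P (pderiv j F) = toBig P (pderiv i F)

end Definitions

section Dimension

lemma ringKrullDim_le_of_isIntegral {R S : Type*} [CommRing R] [CommRing S] [Algebra R S]
    [Algebra.IsIntegral R S] : ringKrullDim S ≤ ringKrullDim R := by
  apply Order.krullDim_le_of_strictMono (PrimeSpectrum.comap (algebraMap R S))
  intro I J hIJ
  have h : I.asIdeal < J.asIdeal := hIJ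
  exact Ideal.IsIntegral.comap_lt_comap (R := R) h

lemma ringKrullDim_ge_of_isIntegral {R S : Type*} [CommRing R] [CommRing S] [Algebra R S]
    [Algebra.IsIntegral R S] (hinj : Function.Injective (algebraMap R S)) :
    ringKrullDim R ≤ ringKrullDim S := by
  apply iSup_le
  intro l
  obtain ⟨P, hP, hlies⟩ := Ideal.exists_ideal_over_prime_of_isIntegral (S := S)
    (l.head).asIdeal ⊥ (by
      rw [← RingHom.ker_eq_comap_bot, (RingHom.injective_iff_ker_eq_bot _).mp hinj]
      exact bot_le)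
  have : P.LiesOver (l.head).asIdeal := ⟨hlies.2.symm⟩
  have : P.IsPrime := hlies.1
  obtain ⟨L, hL, -, -⟩ := Ideal.exists_ltSeries_of_hasGoingUp (S := S) l P
  rw [← hL]
  exact Order.LTSeries.length_le_krullDim L

end Dimension

section Surface

open Pool.Agent.Results.MP_291982_ag.GaussNotPowers (U D_U sum_pderiv exists_hyperplane
  exists_hyperplane_zero exists_pow_ne eval_U Dist)

variable {k : Type*} [Field k] {σ : Type*}

/-- The equation of the hypersurface. -/
noncomputable def Eeq (s : ℕ) (a0 a1 a2 a3 : σ) : MvPolynomial σ k :=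
  U s a0 a1 * (X a1 * X a2 ^ (s + 2) - X a1 ^ (s + 2) * X a2) +
    X a0 * (U s a0 a1 * U s a0 a3 - U s a0 a2 ^ 2)

lemma cast_zero {s : ℕ} (hs : ((s + 2 : ℕ) : k) = 0) : ((s + 2 : ℕ) : MvPolynomial σ k) = 0 := by
  rw [← map_natCast (C : k →+* MvPolynomial σ k), hs, map_zero]

lemma D_E {s : ℕ} (hs : ((s + 2 : ℕ) : k) = 0) (a0 a1 a2 a3 : σ)
    (D : Derivation k (MvPolynomial σ k) (MvPolynomial σ k)) (h0 : D (X a0) = 0)
    (h1 : D (X a1) = 0) :
    D (Eeq s a0 a1 a2 a3) = (2 * X a0 ^ (s + 2) * U s a0 a2 - X a1 ^ (s + 2) * U s a0 a1) *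
      D (X a2) - X a0 ^ (s + 2) * U s a0 a1 * D (X a3) := by
  simp only [Eeq, map_sub, map_add, Derivation.leibniz, Derivation.leibniz_pow, smul_eq_mul,
    nsmul_eq_mul, D_U hs, h0, h1, cast_zero hs]
  push_cast
  ring

lemma frob_E {s : ℕ} (hs : ((s + 2 : ℕ) : k) = 0) (a0 a1 a2 a3 : σ) :
    mkDerivation k (fun i : σ => (X i : MvPolynomial σ k) ^ (s + 2)) (Eeq s a0 a1 a2 a3) =
      Eeq s a0 a1 a2 a3 * (- X a0 ^ (s + 1)) := by
  simp only [Eeq, map_sub, map_add, Derivation.leibniz, Derivation.leibniz_pow, smul_eq_mul,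
    nsmul_eq_mul, D_U hs, mkDerivation_X, cast_zero hs]
  simp only [U]
  push_cast
  ring

lemma pderiv_E {s : ℕ} (hs : ((s + 2 : ℕ) : k) = 0) {a0 a1 a2 a3 : σ}
    (hd : Dist a0 a1 a2 a3) :
    pderiv a2 (Eeq s a0 a1 a2 a3 : MvPolynomial σ k) =
      2 * X a0 ^ (s + 2) * U s a0 a2 - X a1 ^ (s + 2) * U s a0 a1 ∧
    pderiv a3 (Eeq s a0 a1 a2 a3 : MvPolynomial σ k) = - (X a0 ^ (s + 2) * U s a0 a1) := by
  classical
  refine ⟨?_, ?_⟩
  · rw [D_E hs _ _ _ _ _ (pderiv_X_of_ne hd.h02.symm) (pderiv_X_of_ne hd.h12), pderiv_X_self,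
      pderiv_X_of_ne hd.h23.symm]
    ring
  · rw [D_E hs _ _ _ _ _ (pderiv_X_of_ne hd.h03.symm) (pderiv_X_of_ne hd.h13), pderiv_X_self,
      pderiv_X_of_ne hd.h23]
    ring

lemma not_dvd_X0 [IsAlgClosed k] {s : ℕ} {a0 a1 a2 a3 : σ} (hd : Dist a0 a1 a2 a3)
    {G : MvPolynomial σ k}
    (hG : Irreducible G) (hF : G ∣ Eeq s a0 a1 a2 a3) : ¬ G ∣ X a0 := by
  classical
  intro h
  obtain ⟨c, hc⟩ := exists_pow_ne (k := k) s
  let v : σ → k := fun i => if i = a0 then 0 else if i = a1 then 1 else c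
  have v0 : v a0 = 0 := by simp [v]
  have v1 : v a1 = 1 := by simp [v, hd.h01]
  have v2 : v a2 = c := by simp [v, hd.h02, hd.h12.symm]
  have h1 := exists_hyperplane_zero hG h _ hF v v0
  simp [Eeq, eval_U, v0, v1, v2] at h1
  exact hc h1

lemma not_dvd_U1 [IsAlgClosed k] {s : ℕ} {a0 a1 a2 a3 : σ} (hd : Dist a0 a1 a2 a3)
    {G : MvPolynomial σ k}
    (hG : Irreducible G) (hF : G ∣ Eeq s a0 a1 a2 a3) : ¬ G ∣ U s a0 a1 := by
  classical
  intro h
  obtain ⟨a, ha⟩ := exists_hyperplane hd.h01 hG h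
  obtain ⟨c, hc⟩ := exists_pow_ne (k := k) s
  let v : σ → k := fun i => if i = a0 then 1 else if i = a1 then a else c
  have v0 : v a0 = 1 := by simp [v]
  have v1 : v a1 = a := by simp [v, hd.h01]
  have v2 : v a2 = c := by simp [v, hd.h02, hd.h12.symm]
  have h1 := ha _ hF v (by rw [v0, v1, mul_one])
  have h2 := ha _ h v (by rw [v0, v1, mul_one])
  rw [Eeq, map_add, map_mul, h2, zero_mul, zero_add, map_mul, map_sub, map_mul, h2, map_pow,
    eval_U s a0 a2, eval_X, v0, v2] at h1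
  apply hc
  have : (c ^ (s + 2) - c) ^ 2 = 0 := by linear_combination -h1
  exact pow_eq_zero_iff (two_ne_zero) |>.mp this

lemma E_ne_zero [IsAlgClosed k] {s : ℕ} {a0 a1 a2 a3 : σ} (hd : Dist a0 a1 a2 a3) :
    (Eeq s a0 a1 a2 a3 : MvPolynomial σ k) ≠ 0 := by
  intro h
  have hX : Irreducible (X a0 : MvPolynomial σ k) := (X_prime (R := k) (i := a0)).irreducible
  exact not_dvd_X0 (k := k) (s := s) hd hX (by rw [h]; exact dvd_zero _) (dvd_refl _)

lemma squarefree_E [IsAlgClosed k] {s : ℕ} (hs : ((s + 2 : ℕ) : k) = 0) {a0 a1 a2 a3 : σ}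
    (hd : Dist a0 a1 a2 a3) : Squarefree (Eeq s a0 a1 a2 a3 : MvPolynomial σ k) := by
  rw [squarefree_iff_no_irreducibles (E_ne_zero hd)]
  intro G hG hGG
  have hF : G ∣ Eeq s a0 a1 a2 a3 := (dvd_mul_right G G).trans hGG
  obtain ⟨H, hH⟩ := hGG
  have h3 : G ∣ pderiv a3 (Eeq s a0 a1 a2 a3 : MvPolynomial σ k) := by
    rw [hH, Derivation.leibniz, Derivation.leibniz]
    simp only [smul_eq_mul]
    exact ⟨G * pderiv a3 H + H * (pderiv a3 G + pderiv a3 G), by ring⟩
  rw [(pderiv_E hs hd).2, dvd_neg] at h3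
  rcases hG.prime.dvd_or_dvd h3 with h | h
  · exact not_dvd_X0 hd hG hF (hG.prime.dvd_of_dvd_pow h)
  · exact not_dvd_U1 hd hG hF h

end Surface

section Cubic

variable (k : Type*) [Field k] {σ : Type*} [DecidableEq σ]

/-- The coordinates `(s³ : s² t : s t² : t³ : 0 : ... : 0)` of the twisted cubic. -/
noncomputable def coord (a0 a1 a2 a3 : σ) (i : σ) : MvPolynomial (Fin 2) k :=
  if i = a0 then X 0 ^ 3 else if i = a1 then X 0 ^ 2 * X 1 else if i = a2 then X 0 * X 1 ^ 2
    else if i = a3 then X 1 ^ 3 else 0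

/-- The parametrization of the twisted cubic. -/
noncomputable def par (a0 a1 a2 a3 : σ) : MvPolynomial σ k →ₐ[k] MvPolynomial (Fin 2) k :=
  aeval (coord k a0 a1 a2 a3)

/-- The monomial lift of `s^i t^j` to a form in the coordinates. -/
noncomputable def lift (a0 a1 a2 a3 : σ) (i j : ℕ) : MvPolynomial σ k :=
  X a0 ^ (i / 3) * X a3 ^ (j / 3) * (if j % 3 = 0 then 1 else if j % 3 = 1 then X a1 else X a2)

/-- The linear map sending `s^i t^j` to its monomial lift. -/
noncomputable def liftLin (a0 a1 a2 a3 : σ) : MvPolynomial (Fin 2) k →ₗ[k] MvPolynomial σ k :=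
  (basisMonomials (Fin 2) k).constr k (fun m => lift k a0 a1 a2 a3 (m 0) (m 1))

omit [DecidableEq σ] in
lemma liftLin_monomial (a0 a1 a2 a3 : σ) (i j : ℕ) :
    liftLin k a0 a1 a2 a3 (X 0 ^ i * X 1 ^ j) = lift k a0 a1 a2 a3 i j := by
  have h : (X 0 ^ i * X 1 ^ j : MvPolynomial (Fin 2) k) =
      basisMonomials (Fin 2) k (Finsupp.single 0 i + Finsupp.single 1 j) := by
    rw [coe_basisMonomials, X_pow_eq_monomial, X_pow_eq_monomial, monomial_mul, one_mul]
  rw [h, liftLin, Module.Basis.constr_basis]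
  simp

variable {k}

lemma par_lift {a0 a1 a2 a3 : σ} (hd : GaussNotPowers.Dist a0 a1 a2 a3) (i j d : ℕ)
    (h : i + j = 3 * d) : par k a0 a1 a2 a3 (lift k a0 a1 a2 a3 i j) = X 0 ^ i * X 1 ^ j := by
  have c0 : par k a0 a1 a2 a3 (X a0) = X 0 ^ 3 := by simp [par, coord]
  have c1 : par k a0 a1 a2 a3 (X a1) = X 0 ^ 2 * X 1 := by simp [par, coord, hd.h01]
  have c2 : par k a0 a1 a2 a3 (X a2) = X 0 * X 1 ^ 2 := by
    simp [par, coord, hd.h02, hd.h12.symm]
  have c3 : par k a0 a1 a2 a3 (X a3) = X 1 ^ 3 := by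
    simp [par, coord, hd.h03, hd.h13.symm, hd.h23.symm]
  rw [lift, map_mul, map_mul, map_pow, map_pow, c0, c3]
  rcases (by omega : j % 3 = 0 ∨ j % 3 = 1 ∨ j % 3 = 2) with hj | hj | hj
  · rw [if_pos hj, map_one, mul_one, ← pow_mul, ← pow_mul]
    congr 2 <;> omega
  · rw [if_neg (by omega), if_pos hj, c1, ← pow_mul, ← pow_mul]
    have e1 : i = 3 * (i / 3) + 2 := by omega
    have e2 : j = 3 * (j / 3) + 1 := by omega
    conv_rhs => rw [e1, e2]
    ring
  · rw [if_neg (by omega), if_neg (by omega), c2, ← pow_mul, ← pow_mul]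
    have e1 : i = 3 * (i / 3) + 1 := by omega
    have e2 : j = 3 * (j / 3) + 2 := by omega
    conv_rhs => rw [e1, e2]
    ring

lemma par_monomial (a0 a1 a2 a3 : σ) (a : σ →₀ ℕ) :
    par k a0 a1 a2 a3 (monomial a 1) = 0 ∨
      ∃ i j, i + j = 3 * a.degree ∧ par k a0 a1 a2 a3 (monomial a 1) = X 0 ^ i * X 1 ^ j := by
  induction a using Finsupp.induction_linear with
  | zero => right; exact ⟨0, 0, by simp, by simp⟩
  | add f g hf hg =>
    have hm : (monomial (f + g) (1 : k)) = monomial f 1 * monomial g 1 := by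
      rw [monomial_mul, one_mul]
    rw [hm, map_mul]
    rcases hf with hf | ⟨i, j, hij, hf⟩
    · left; rw [hf, zero_mul]
    rcases hg with hg | ⟨i', j', hij', hg⟩
    · left; rw [hg, mul_zero]
    right
    refine ⟨i + i', j + j', ?_, ?_⟩
    · rw [map_add]; omega
    · rw [hf, hg]; ring
  | single c m =>
    rw [← X_pow_eq_monomial, map_pow]
    have hc : par k a0 a1 a2 a3 (X c) = coord k a0 a1 a2 a3 c := by simp [par]
    rw [hc, coord, Finsupp.degree_single]
    by_cases h0 : c = a0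
    · right; exact ⟨3 * m, 0, by omega, by rw [if_pos h0]; ring⟩
    by_cases h1 : c = a1
    · right; exact ⟨2 * m, m, by omega, by rw [if_neg h0, if_pos h1]; ring⟩
    by_cases h2 : c = a2
    · right; exact ⟨m, 2 * m, by omega, by rw [if_neg h0, if_neg h1, if_pos h2]; ring⟩
    by_cases h3 : c = a3
    · right
      exact ⟨0, 3 * m, by omega, by rw [if_neg h0, if_neg h1, if_neg h2, if_pos h3]; ring⟩
    rcases Nat.eq_zero_or_pos m with hm | hm
    · right; exact ⟨0, 0, by omega, by rw [hm]; simp⟩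
    · left
      rw [if_neg h0, if_neg h1, if_neg h2, if_neg h3, zero_pow hm.ne']

/-- The forms generating the ideal of the twisted cubic. -/
noncomputable def gens (k : Type*) [Field k] (a0 a1 a2 a3 : σ) : Set (MvPolynomial σ k) :=
  Set.range fun a : σ →₀ ℕ =>
    monomial a 1 - liftLin k a0 a1 a2 a3 (par k a0 a1 a2 a3 (monomial a 1))

lemma ker_par {a0 a1 a2 a3 : σ} (hd : GaussNotPowers.Dist a0 a1 a2 a3) :
    RingHom.ker (par k a0 a1 a2 a3) = Ideal.span (gens k a0 a1 a2 a3) := by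
  apply le_antisymm
  · intro f hf
    rw [RingHom.mem_ker] at hf
    have h1 : f = ∑ a ∈ f.support, C (coeff a f) *
        (monomial a 1 - liftLin k a0 a1 a2 a3 (par k a0 a1 a2 a3 (monomial a 1))) := by
      have h2 : liftLin k a0 a1 a2 a3 (par k a0 a1 a2 a3 f) = ∑ a ∈ f.support,
          C (coeff a f) * liftLin k a0 a1 a2 a3 (par k a0 a1 a2 a3 (monomial a 1)) := by
        conv_lhs => rw [f.as_sum]
        rw [map_sum, map_sum]
        apply Finset.sum_congr rfl
        intro a _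
        have h3 : (monomial a (coeff a f) : MvPolynomial σ k) = coeff a f • monomial a 1 := by
          rw [smul_monomial, smul_eq_mul, mul_one]
        rw [h3, map_smul, map_smul, smul_eq_C_mul]
      rw [hf, map_zero] at h2
      simp only [mul_sub, Finset.sum_sub_distrib]
      rw [← h2, sub_zero]
      conv_lhs => rw [f.as_sum]
      apply Finset.sum_congr rfl
      intro a _
      rw [C_mul_monomial, mul_one]
    rw [h1]
    apply Ideal.sum_mem
    intro a _
    exact Ideal.mul_mem_left _ _ (Ideal.subset_span ⟨a, rfl⟩)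
  · rw [Ideal.span_le]
    rintro _ ⟨a, rfl⟩
    simp only [SetLike.mem_coe, RingHom.mem_ker]
    rcases par_monomial (k := k) a0 a1 a2 a3 a with h | ⟨i, j, hij, h⟩
    · rw [h, map_zero, sub_zero, h]
    · rw [map_sub, h, liftLin_monomial, par_lift hd i j _ hij, sub_self]

omit [DecidableEq σ] in
lemma lift_homog (a0 a1 a2 a3 : σ) (i j d : ℕ) (h : i + j = 3 * d) :
    (lift k a0 a1 a2 a3 i j).IsHomogeneous d := by
  have h1 := ((isHomogeneous_X k a0).pow (i / 3)).mul ((isHomogeneous_X k a3).pow (j / 3))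
  rcases (by omega : j % 3 = 0 ∨ j % 3 = 1 ∨ j % 3 = 2) with hj | hj | hj
  · rw [lift, if_pos hj, mul_one]
    have : 1 * (i / 3) + 1 * (j / 3) = d := by omega
    rwa [this] at h1
  · rw [lift, if_neg (by omega), if_pos hj]
    have h2 := h1.mul (isHomogeneous_X k a1)
    have : 1 * (i / 3) + 1 * (j / 3) + 1 = d := by omega
    rwa [this] at h2
  · rw [lift, if_neg (by omega), if_neg (by omega)]
    have h2 := h1.mul (isHomogeneous_X k a2)
    have : 1 * (i / 3) + 1 * (j / 3) + 1 = d := by omega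
    rwa [this] at h2

lemma gens_homog {a0 a1 a2 a3 : σ} {f : MvPolynomial σ k} (hf : f ∈ gens k a0 a1 a2 a3) :
    ∃ d : ℕ, f.IsHomogeneous d := by
  obtain ⟨a, rfl⟩ := hf
  refine ⟨a.degree, IsHomogeneous.sub (isHomogeneous_monomial _ rfl) ?_⟩
  rcases par_monomial (k := k) a0 a1 a2 a3 a with h | ⟨i, j, hij, h⟩
  · rw [h, map_zero]; exact isHomogeneous_zero _ _ _
  · rw [h, liftLin_monomial]; exact lift_homog a0 a1 a2 a3 i j _ hij

lemma gens_map {a0 a1 a2 a3 : σ} {f : MvPolynomial σ k} (hf : f ∈ gens k a0 a1 a2 a3)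
    (φ : k →+* k) : MvPolynomial.map φ f = f := by
  obtain ⟨a, rfl⟩ := hf
  simp only
  rcases par_monomial (k := k) a0 a1 a2 a3 a with h | ⟨i, j, hij, h⟩
  · rw [h]; simp
  · rw [h, liftLin_monomial, lift]
    split_ifs <;> simp

/-- `k[s, t]` is integral over the homogeneous coordinate ring of the twisted cubic. -/
lemma par_integral {a0 a1 a2 a3 : σ} (hd : GaussNotPowers.Dist a0 a1 a2 a3) :
    (RingHom.kerLift
      (par k a0 a1 a2 a3 : MvPolynomial σ k →+* MvPolynomial (Fin 2) k)).IsIntegral := by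
  set φ := RingHom.kerLift (par k a0 a1 a2 a3 : MvPolynomial σ k →+* MvPolynomial (Fin 2) k)
    with hφ
  have hC : ∀ c : k, φ.IsIntegralElem (C c) := by
    intro c
    have : (C c : MvPolynomial (Fin 2) k) = φ (Ideal.Quotient.mk _ (C c)) := by
      rw [hφ, RingHom.kerLift_mk]
      simp [par]
    rw [this]
    exact φ.isIntegralElem_map
  have hX : ∀ i : Fin 2, φ.IsIntegralElem (X i) := by
    intro i
    have hpow : ∀ (x : MvPolynomial (Fin 2) k) y, x ^ 3 = φ y → φ.IsIntegralElem x := by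
      intro x y hxy
      exact ⟨Polynomial.X ^ 3 - Polynomial.C y, Polynomial.monic_X_pow_sub_C _ (by norm_num),
        by simp [hxy]⟩
    fin_cases i
    · have : ((X 0 : MvPolynomial (Fin 2) k) ^ 3) = φ (Ideal.Quotient.mk _ (X a0)) := by
        rw [hφ, RingHom.kerLift_mk]
        simp [par, coord]
      exact hpow _ _ this
    · have : ((X 1 : MvPolynomial (Fin 2) k) ^ 3) = φ (Ideal.Quotient.mk _ (X a3)) := by
        rw [hφ, RingHom.kerLift_mk]
        simp [par, coord, hd.h03, hd.h13.symm, hd.h23.symm]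
      exact hpow _ _ this
  intro f
  induction f using MvPolynomial.induction_on with
  | C a => exact hC a
  | add p q hp hq => exact RingHom.IsIntegralElem.add _ hp hq
  | mul_X p i hp => exact RingHom.IsIntegralElem.mul _ hp (hX i)

lemma dim_quotient {a0 a1 a2 a3 : σ} (hd : GaussNotPowers.Dist a0 a1 a2 a3) :
    ringKrullDim (MvPolynomial σ k ⧸
      RingHom.ker (par k a0 a1 a2 a3 : MvPolynomial σ k →+* MvPolynomial (Fin 2) k)) = 2 := by
  set φ := RingHom.kerLift (par k a0 a1 a2 a3 : MvPolynomial σ k →+* MvPolynomial (Fin 2) k)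
    with hφ
  algebraize [φ]
  have hi : Algebra.IsIntegral (MvPolynomial σ k ⧸
      RingHom.ker (par k a0 a1 a2 a3 : MvPolynomial σ k →+* MvPolynomial (Fin 2) k))
      (MvPolynomial (Fin 2) k) := ⟨par_integral hd⟩
  have h1 := ringKrullDim_le_of_isIntegral (R := (MvPolynomial σ k ⧸
      RingHom.ker (par k a0 a1 a2 a3 : MvPolynomial σ k →+* MvPolynomial (Fin 2) k)))
      (S := MvPolynomial (Fin 2) k)
  have h2 := ringKrullDim_ge_of_isIntegral (R := (MvPolynomial σ k ⧸
      RingHom.ker (par k a0 a1 a2 a3 : MvPolynomial σ k →+* MvPolynomial (Fin 2) k)))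
      (S := MvPolynomial (Fin 2) k) (RingHom.kerLift_injective _)
  have h3 : ringKrullDim (MvPolynomial (Fin 2) k) = 2 := by
    rw [MvPolynomial.ringKrullDim_of_isNoetherianRing, ringKrullDim_eq_zero_of_field]
    simp
  rw [h3] at h1 h2
  exact le_antisymm h2 h1

end Cubic

theorem result (n : ℕ) (hn : 3 ≤ n) (p : ℕ) [Fact p.Prime] (hp : p ≠ 2) (e : ℕ) (he : 0 < e) :
    ∃ (F : MvPolynomial (Fin (n + 1)) (AlgebraicClosure (ZMod p)))
      (P : Ideal (MvPolynomial (Fin (n + 1)) (AlgebraicClosure (ZMod p)))),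
      IsHypersurface (p ^ e) F ∧ IsFrobeniusNonclassical (p ^ e) F ∧
        IsCurveIdeal (p ^ e) P ∧ F ∈ P ∧ (∃ j, pderiv j F ∉ P) ∧ ¬ IsInseparableOn p F P := by
  set k := AlgebraicClosure (ZMod p) with hk
  have : CharP k p := by infer_instance
  have hpr : p.Prime := Fact.out
  obtain ⟨s, hs⟩ : ∃ s, p ^ e = s + 2 := by
    have : 2 ≤ p ^ e := by
      calc 2 ≤ p := hpr.two_le
        _ = p ^ 1 := (pow_one p).symm
        _ ≤ p ^ e := Nat.pow_le_pow_right hpr.pos he
    exact ⟨p ^ e - 2, by omega⟩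
  have hs0 : ((s + 2 : ℕ) : k) = 0 := by
    rw [← hs, Nat.cast_pow, CharP.cast_eq_zero, zero_pow he.ne']
  let a0 : Fin (n + 1) := ⟨0, by omega⟩
  let a1 : Fin (n + 1) := ⟨1, by omega⟩
  let a2 : Fin (n + 1) := ⟨2, by omega⟩
  let a3 : Fin (n + 1) := ⟨3, by omega⟩
  have hd : GaussNotPowers.Dist a0 a1 a2 a3 := by
    constructor <;> simp [a0, a1, a2, a3]
  set φ : MvPolynomial (Fin (n + 1)) k →ₐ[k] MvPolynomial (Fin 2) k := par k a0 a1 a2 a3 with hφ
  have c0 : φ (X a0) = X 0 ^ 3 := by simp [hφ, par, coord]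
  have c1 : φ (X a1) = X 0 ^ 2 * X 1 := by simp [hφ, par, coord, hd.h01]
  have c2 : φ (X a2) = X 0 * X 1 ^ 2 := by
    simp [hφ, par, coord, hd.h02, hd.h12.symm]
  have c3 : φ (X a3) = X 1 ^ 3 := by
    simp [hφ, par, coord, hd.h03, hd.h13.symm, hd.h23.symm]
  have hU1 : φ (GaussNotPowers.U s a0 a1) =
      X 0 ^ (2 * s + 4) * (X 1 ^ (s + 2) - X 0 ^ (s + 1) * X 1) := by
    simp only [GaussNotPowers.U, map_sub, map_mul, map_pow, c0, c1]
    ring
  have hE3 : φ (pderiv a3 (Eeq s a0 a1 a2 a3)) =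
      - (X 0 ^ (5 * s + 10) * (X 1 ^ (s + 2) - X 0 ^ (s + 1) * X 1)) := by
    rw [(pderiv_E hs0 hd).2, map_neg, map_mul, hU1, map_pow, c0]
    ring
  have hE2 : X 0 ^ (s + 2) * φ (pderiv a2 (Eeq s a0 a1 a2 a3)) =
      - (φ (pderiv a3 (Eeq s a0 a1 a2 a3)) * (X 1 ^ (s + 2) + 2 * X 0 ^ (s + 1) * X 1)) := by
    rw [hE3, (pderiv_E hs0 hd).1]
    simp only [GaussNotPowers.U, map_sub, map_mul, map_pow, c0, c1, c2, map_ofNat]
    ring
  have hFne : (X 1 ^ (s + 2) - X 0 ^ (s + 1) * X 1 : MvPolynomial (Fin 2) k) ≠ 0 := by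
    intro h
    have := congrArg (eval (fun i : Fin 2 => if i = 0 then (0 : k) else 1)) h
    simp at this
  have hE3ne : φ (pderiv a3 (Eeq s a0 a1 a2 a3)) ≠ 0 := by
    rw [hE3]
    exact neg_ne_zero.mpr (mul_ne_zero (pow_ne_zero _ (X_ne_zero _)) hFne)
  have hmem : ∀ f, f ∈ RingHom.ker φ ↔ φ f = 0 := fun f => RingHom.mem_ker
  refine ⟨Eeq s a0 a1 a2 a3, RingHom.ker φ, ⟨⟨2 * (s + 2) + 1, by omega, ?_⟩, E_ne_zero hd,
    squarefree_E hs0 hd, ?_⟩, ?_, ⟨RingHom.ker_isPrime _, dim_quotient hd, gens k a0 a1 a2 a3,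
    ker_par hd, fun f hf => ⟨gens_homog hf, ?_⟩⟩, ?_, ⟨a3, ?_⟩, ?_⟩
  · have hU : ∀ i, (GaussNotPowers.U s a0 i : MvPolynomial (Fin (n + 1)) k).IsHomogeneous (s + 2) := by
      intro i
      refine IsHomogeneous.sub ?_ ?_
      · simpa using (isHomogeneous_X k i).pow (s + 2)
      · have := (isHomogeneous_X k i).mul ((isHomogeneous_X k a0).pow (s + 1))
        have h2 : 1 + 1 * (s + 1) = s + 2 := by ring
        rwa [h2] at this
    have h1 : (X a1 * X a2 ^ (s + 2) : MvPolynomial (Fin (n + 1)) k).IsHomogeneous (s + 3) := by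
      have := (isHomogeneous_X k a1).mul ((isHomogeneous_X k a2).pow (s + 2))
      have h2 : 1 + 1 * (s + 2) = s + 3 := by ring
      rwa [h2] at this
    have h2 : (X a1 ^ (s + 2) * X a2 : MvPolynomial (Fin (n + 1)) k).IsHomogeneous (s + 3) := by
      have := ((isHomogeneous_X k a1).pow (s + 2)).mul (isHomogeneous_X k a2)
      have h2 : 1 * (s + 2) + 1 = s + 3 := by ring
      rwa [h2] at this
    have h3 := (hU a1).mul (h1.sub h2)
    have h5 : (GaussNotPowers.U s a0 a2 ^ 2 : MvPolynomial (Fin (n + 1)) k).IsHomogeneous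
        (s + 2 + (s + 2)) := by
      rw [pow_two]
      exact (hU a2).mul (hU a2)
    have h4 := (isHomogeneous_X k a0).mul (((hU a1).mul (hU a3)).sub h5)
    have e1 : s + 2 + (s + 3) = 2 * (s + 2) + 1 := by ring
    have e2 : 1 + (s + 2 + (s + 2)) = 2 * (s + 2) + 1 := by ring
    rw [e1] at h3
    rw [e2] at h4
    exact h3.add h4
  · intro m
    have hmap : MvPolynomial.map (iterateFrobenius k p e) (Eeq s a0 a1 a2 a3) =
        (Eeq s a0 a1 a2 a3 : MvPolynomial (Fin (n + 1)) k) := by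
      simp [Eeq, GaussNotPowers.U]
    have := congrArg (coeff m) hmap
    rwa [coeff_map, iterateFrobenius_def] at this
  · rw [IsFrobeniusNonclassical, hs, GaussNotPowers.sum_pderiv, frob_E hs0]
    exact dvd_mul_right _ _
  · intro m
    have := congrArg (coeff m) (gens_map hf (iterateFrobenius k p e))
    rwa [coeff_map, iterateFrobenius_def] at this
  · rw [hmem]
    simp only [Eeq, GaussNotPowers.U, map_sub, map_add, map_mul, map_pow, c0, c1, c2, c3]
    ring
  · rw [hmem]
    exact hE3ne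
  · intro hins
    obtain ⟨g, ⟨d, A, B, -, -, hB, hAB⟩, hg⟩ := hins a2 a3 (by rw [hmem]; exact hE3ne)
    have hPr : (RingHom.ker φ).IsPrime := RingHom.ker_isPrime _
    have hzero : ∀ f, toBig (RingHom.ker φ) f = 0 ↔ φ f = 0 := by
      intro f
      rw [toBig, RingHom.comp_apply, ← hmem, ← Ideal.Quotient.eq_zero_iff_mem]
      exact (IsFractionRing.injective (MvPolynomial (Fin (n + 1)) k ⧸ RingHom.ker φ)
        (BigField (RingHom.ker φ))).eq_iff' (map_zero _)
    have h1 : toBig (RingHom.ker φ) (A ^ p * pderiv a3 (Eeq s a0 a1 a2 a3) -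
        B ^ p * pderiv a2 (Eeq s a0 a1 a2 a3)) = 0 := by
      rw [map_sub, map_mul, map_mul, map_pow, map_pow, ← hAB]
      linear_combination (toBig (RingHom.ker φ) B) ^ p * hg
    rw [hzero, map_sub, map_mul, map_mul, map_pow, map_pow] at h1
    have hB0 : φ B ≠ 0 := fun h => hB ((hmem _).mpr h)
    have h2 : φ A ^ p * X 0 ^ (s + 2) = - (φ B ^ p * (X 1 ^ (s + 2) + 2 * X 0 ^ (s + 1) * X 1)) := by
      apply mul_left_cancel₀ hE3ne
      linear_combination X 0 ^ (s + 2) * h1 + φ B ^ p * hE2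
    have hpz : (p : MvPolynomial (Fin 2) k) = 0 := by
      rw [← map_natCast (C : k →+* MvPolynomial (Fin 2) k), CharP.cast_eq_zero, map_zero]
    have hsz : ((s + 2 : ℕ) : MvPolynomial (Fin 2) k) = 0 := cast_zero hs0
    have h3 := congrArg (pderiv (1 : Fin 2)) h2
    have h01 : pderiv (1 : Fin 2) (X 0 : MvPolynomial (Fin 2) k) = 0 :=
      pderiv_X_of_ne (by decide)
    have h22 : pderiv (1 : Fin 2) (2 : MvPolynomial (Fin 2) k) = 0 := by
      have := Derivation.map_natCast (pderiv (R := k) (1 : Fin 2)) 2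
      simpa using this
    simp only [Derivation.leibniz, Derivation.leibniz_pow, smul_eq_mul, nsmul_eq_mul, hpz, hsz,
      map_neg, map_add, h01, pderiv_X_self, h22] at h3
    have h4 : φ B ^ p * (2 * X 0 ^ (s + 1)) = 0 := by
      linear_combination h3
    have h5 : (2 : MvPolynomial (Fin 2) k) ≠ 0 := by
      intro h
      have h' : ((2 : ℕ) : MvPolynomial (Fin 2) k) = 0 := by
        push_cast
        exact h
      rw [CharP.cast_eq_zero_iff (MvPolynomial (Fin 2) k) p] at h'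
      exact hp ((Nat.prime_dvd_prime_iff_eq hpr Nat.prime_two).mp h')
    exact mul_ne_zero (pow_ne_zero _ hB0) (mul_ne_zero h5 (pow_ne_zero _ (X_ne_zero _))) h4

end Pool.Agent.Results.MP_291982_ag.SeparableCurve
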